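import Pool.Agent.H846.Hdt.Pos
import Pool.Agent.H846.Det.Nil

/-!
# The standard conjectures of Hodge type and D for a product from detection at places
-/

open CategoryTheory AlgebraicGeometry Finset

universe u v

namespace Pool.Agent.H846.Hdt

open Pool.Agent.H914 Pool.Agent.H914.VarClass Pool.Agent.H914.VarClass.Obj
  Pool.Agent.H914.WeilCohomology Pool.Agent.H281R3.HT Pool.Agent.W552 Pool.Agent.W539.Ker
  Pool.Agent.R911.Iso Pool.Agent.H447 Pool.Agent.H846.Det Pool.Agent.H846.Plc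

variable {k : Type u} [Field k] {𝒱 : VarClass k} {ops : CycleOps 𝒱}
  {W : WeilCohomology.{u, v} ops}

/-- The weight of the operator of a cycle. -/
lemma hm_cyc {X Y : 𝒱.Obj} {j : ℕ} {c : (X.prod Y).Cycles} (hc : (X.prod Y).IsCyc j c) :
    Hm W (2 * j - (X.prod Y).dim) (W.corr (W.cl _ c)) := by
  rw [hm_corr, Fr.wt_gr (W.cl_mem hc)]
  congr 1
  push_cast
  ring

/-- Homological detection implies numerical detection. -/
theorem detected_of_hom {P Q : Polarized 𝒱} {l : ℕ} {v : (P.X.prod Q.X).Cycles}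
    (h : HomDetectedSomewhere W P Q l v) : DetectedSomewhere W P Q l v := by
  obtain ⟨k₀, _, 𝒱₀, ops₀, W₀, P₀, Q₀, R, S, hP₀, hQ₀, hR, v₀, p, r, z, hv₀, hspec, hz, hpr,
    hRP, hRQ, y, hy⟩ := h
  obtain ⟨g₀, G₀'⟩ := exists_gd hQ₀.isCyc hQ₀.hard hQ₀.std
  obtain ⟨t₀, GR⟩ := exists_gd hR.isCyc hR.hard hR.std
  have hcz : (R.X.prod Q₀.X).IsCyc r (compCyc ops₀ z v₀) := compCyc_mem hz hv₀ hpr
  have hcorr : W₀.corr (W₀.cl _ (compCyc ops₀ z v₀)) =
      W₀.corr (W₀.cl _ v₀) ∘ₗ W₀.corr (W₀.cl _ z) := by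
    rw [corr_compCyc W₀ hv₀]
  have hne : W₀.cl _ (compCyc ops₀ z v₀) ≠ 0 := by
    intro h0
    apply hy
    have h1 : W₀.corr (W₀.cl _ v₀) ∘ₗ W₀.corr (W₀.cl _ z) = 0 := by
      rw [← hcorr, h0, corr_zero]
    exact congrArg (fun T => T y) h1
  have hr : r ≤ (R.X.prod Q₀.X).dim := by
    by_contra hr
    apply hne
    have h1 := W₀.cl_mem hcz
    rw [W₀.gr_eq_bot _ _ (by omega)] at h1
    exact (Submodule.mem_bot _).1 h1
  refine ⟨k₀, _, 𝒱₀, ops₀, W₀, P₀, Q₀, R, S, hP₀, hQ₀, hR, v₀, p, r, z, hv₀, hspec, hz, hpr,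
    hr, hodgeUpTo_of_hom hRP, hodgeUpTo_of_hom hRQ, ?_⟩
  intro hnum
  exact hne (numHomIn_of_hom (P := R.prod ops₀ Q₀) (gd_prod GR G₀') hRQ hr (Or.inl le_rfl) _ hcz
    hnum)

section Core

variable {P Q : Polarized 𝒱} {f : Module.End W.K (W.H P.X)} {g : Module.End W.K (W.H Q.X)}

/-- The eigenvalues of `u' u` are detected. -/
theorem detectsEv_of_places (G : Gd W P.X P.D f) (G' : Gd W Q.X Q.D g)
    {l : ℕ} (h_det : ∀ v, IsPartialIso W P.X Q.X l v → DetectedSomewhere W P Q l v)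
    {u : W.H P.X →ₗ[W.K] W.H Q.X} {u' : W.H Q.X →ₗ[W.K] W.H P.X} (hu : AOp W P.X Q.X u)
    (hu' : AOp W Q.X P.X u') (hadj : Adj W P.D f Q.D g u u')
    (hm : Hm W (2 * l - (P.X.prod Q.X).dim) u) : DetectsEv (u' ∘ₗ u) := by
  intro g₁ he2 hne
  by_cases hg0 : g₁.coeff 0 = 0
  · exact exists_posFun G G' h_det hu hu' hadj hm hg0 he2 hne
  by_cases hann : ∀ h, Det.ev (u' ∘ₗ u) h = 0 → h.coeff 0 = 0
  · refine ⟨Polynomial.lcoeff ℚ 0, ⟨?_, ?_⟩, fun h hh => hann h hh, hg0⟩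
    · intro h
      rw [Polynomial.lcoeff_apply, Polynomial.mul_coeff_zero]
      exact mul_self_nonneg _
    · intro h
      rw [Polynomial.lcoeff_apply, Polynomial.mul_coeff_zero, Polynomial.coeff_X_zero, zero_mul]
  · push Not at hann
    obtain ⟨h₀, hh₀, hc0⟩ := hann
    set r := g₁ - (g₁.coeff 0 / h₀.coeff 0) • h₀ with hr
    have hrc : r.coeff 0 = 0 := by
      rw [hr, Polynomial.coeff_sub, Polynomial.coeff_smul, smul_eq_mul, div_mul_cancel₀ _ hc0,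
        sub_self]
    have hre : Det.ev (u' ∘ₗ u) r = Det.ev (u' ∘ₗ u) g₁ := by
      rw [hr, map_sub, ev_smul, hh₀, smul_zero, sub_zero]
    obtain ⟨φ, hφ, hφ0, hφr⟩ := exists_posFun G G' h_det hu hu' hadj hm hrc
      (by rw [hre]; exact he2) (by rw [hre]; exact hne)
    refine ⟨φ, hφ, hφ0, ?_⟩
    have h1 := hφ0 (g₁ - r) (by rw [map_sub, hre, sub_self])
    rw [map_sub, sub_eq_zero] at h1
    rw [h1]
    exact hφr

/-- **A detected operator `v` is such that `v' v` is not nilpotent.** -/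
theorem not_nilpotent_of_detected (G : Gd W P.X P.D f) (G' : Gd W Q.X Q.D g) {l : ℕ}
    {c : (P.X.prod Q.X).Cycles} (h : HomDetectedSomewhere W P Q l c)
    {u' : W.H Q.X →ₗ[W.K] W.H P.X} (hadj : Adj W P.D f Q.D g (W.corr (W.cl _ c)) u') {N : ℕ}
    (hN : (u' ∘ₗ W.corr (W.cl _ c) : Module.End W.K (W.H P.X)) ^ N = 0) : False := by
  obtain ⟨k₀, _, 𝒱₀, ops₀, W₀, P₀, Q₀, R, S, hP₀, hQ₀, hR, v₀, p, r, z, hv₀, hspec, hz, hpr,
    hRP, hRQ, y, hy⟩ := h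
  obtain ⟨f₀, G₀⟩ := exists_gd hP₀.isCyc hP₀.hard hP₀.std
  obtain ⟨g₀, G₀'⟩ := exists_gd hQ₀.isCyc hQ₀.hard hQ₀.std
  obtain ⟨t₀, GR⟩ := exists_gd hR.isCyc hR.hard hR.std
  set V₀ := W₀.corr (W₀.cl _ v₀) with hV₀
  have hV₀a : AOp W₀ P₀.X Q₀.X V₀ := ⟨_, AS.of ⟨v₀, hv₀, rfl⟩, rfl⟩
  have hrv : Det.Rel S.s S.t (W.corr (W.cl _ c)) V₀ := fun x => hspec x
  obtain ⟨V₀', hV₀'a, hV₀adj⟩ := G₀.adj G₀' hV₀a
  have hrv' : Det.Rel S.t S.s u' V₀' := rel_adj S.fst S.snd G G₀ G' G₀' hrv hadj hV₀adj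
  have hζ : AOp W₀ R.X P₀.X (W₀.corr (W₀.cl _ z)) := ⟨_, AS.of ⟨z, hz, rfl⟩, rfl⟩
  obtain ⟨ζ', hζ', hζadj⟩ := GR.adj G₀ hζ
  obtain ⟨ψ, hψ, hψ'⟩ := exists_functional_codim G₀ G₀' GR (p := p) (q := r)
    (hodgeUpTo_of_hom hRP) (hodgeUpTo_of_hom hRQ) hV₀a hV₀'a
    hV₀adj (hm_cyc hv₀) hζ hζ' hζadj (hm_cyc hz) (by
      rw [dim_prod, dim_prod, dim_prod]
      push_cast
      have : (p : ℤ) + l = r + P₀.X.dim := by exact_mod_cast hpr
      linarith)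
  have hra : Det.Rel S.s S.s (u' ∘ₗ W.corr (W.cl _ c)) (V₀' ∘ₗ V₀) := hrv'.comp hrv
  have hrev : ∀ q, Det.Rel S.s S.s (Det.ev (u' ∘ₗ W.corr (W.cl _ c)) q)
      (Det.ev (V₀' ∘ₗ V₀) q) := fun q => hra.ev S.fst.smul' q
  have hkill : ∀ h, Det.ev (u' ∘ₗ W.corr (W.cl _ c)) h = 0 → ψ h = 0 := by
    intro h hh
    have h1 : Det.ev (V₀' ∘ₗ V₀) h = 0 := by
      refine (hrev h).unique ?_
      rw [hh]
      intro x
      rw [LinearMap.zero_apply, map_zero, LinearMap.zero_apply]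
    have h2 := hψ' h
    rw [h1, LinearMap.zero_comp, LinearMap.comp_zero, map_zero] at h2
    exact_mod_cast h2
  have h4 := hψ.reduce (f := Polynomial.X) (m := N) (by
    intro g
    apply hkill
    rw [map_mul, map_pow, Det.ev_X, hN, zero_mul]) 1
  rw [mul_one] at h4
  have h5 := hψ' Polynomial.X
  rw [h4, Rat.cast_zero, Det.ev_X] at h5
  -- the trace is positive
  have hcz : (R.X.prod Q₀.X).IsCyc r (compCyc ops₀ z v₀) := compCyc_mem hz hv₀ hpr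
  have hcorr : W₀.corr (W₀.cl _ (compCyc ops₀ z v₀)) = V₀ ∘ₗ W₀.corr (W₀.cl _ z) := by
    rw [corr_compCyc W₀ hv₀]
  have hne : W₀.cl _ (compCyc ops₀ z v₀) ≠ 0 := by
    intro h0
    apply hy
    have h1 : V₀ ∘ₗ W₀.corr (W₀.cl _ z) = 0 := by
      rw [← hcorr, h0, corr_zero]
    exact congrArg (fun T => T y) h1
  obtain ⟨q, hq, hq'⟩ := bf_pos_codim (gd_prod GR G₀').fr (l := r) (Or.inl le_rfl) hRQ
    (c := W₀.cl _ (compCyc ops₀ z v₀)) ⟨_, hcz, rfl⟩ hne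
  have h6 : LinearMap.trace W₀.K (W₀.H R.X) ((ζ' ∘ₗ V₀') ∘ₗ
      W₀.corr (W₀.cl _ (compCyc ops₀ z v₀))) = q := by
    rw [trace_adj GR G₀' (AS.of ⟨_, hcz, rfl⟩) (by
      rw [hcorr]
      exact Adj.comp hζadj hV₀adj)]
    exact hq'
  rw [hcorr] at h6
  have h7 : (ζ' ∘ₗ V₀') ∘ₗ (V₀ ∘ₗ W₀.corr (W₀.cl _ z)) =
      ζ' ∘ₗ (V₀' ∘ₗ V₀) ∘ₗ W₀.corr (W₀.cl _ z) := rfl
  rw [h7, ← h5] at h6
  exact hq.ne (by exact_mod_cast h6)

/-- For a numerically trivial cycle `v` the operator `v' v` is nilpotent. -/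
theorem nilpotent_of_numZero (G : Gd W P.X P.D f) (G' : Gd W Q.X Q.D g) {l : ℕ}
    (hl : l ≤ (P.X.prod Q.X).dim) {c : (P.X.prod Q.X).Cycles} (hc : (P.X.prod Q.X).IsCyc l c)
    (hnum : NumZero ops (P.X.prod Q.X) l c) {u' : W.H Q.X →ₗ[W.K] W.H P.X}
    (hu' : AOp W Q.X P.X u') (hadj : Adj W P.D f Q.D g (W.corr (W.cl _ c)) u') :
    IsNilpotent (u' ∘ₗ W.corr (W.cl _ c) : Module.End W.K (W.H P.X)) := by
  have hc' : AS W _ (W.cl (P.X.prod Q.X) c) := AS.of ⟨c, hc, rfl⟩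
  have hu : AOp W P.X Q.X (W.corr (W.cl (P.X.prod Q.X) c)) := ⟨_, hc', rfl⟩
  set a : Module.End W.K (W.H P.X) := u' ∘ₗ W.corr (W.cl _ c) with ha
  have haop : AOp W P.X P.X a := hu'.comp hu
  have hself : Adj W P.D f P.D f a a := Adj.self G G' hadj hu
  apply H914.isNilpotent_of_trace_pow
  intro m
  have h1 : Adj W P.D f P.D f (a ^ m) (a ^ m) := by
    have := adj_ev hself (Polynomial.X ^ m)
    rwa [map_pow, Det.ev_X] at this
  have hw : AOp W P.X Q.X (W.corr (W.cl (P.X.prod Q.X) c) ∘ₗ (a ^ m)) := hu.comp (haop.pow m)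
  obtain ⟨cw, hcw, hcwe⟩ := hw
  have h2 : Adj W P.D f Q.D g (W.corr cw) ((a ^ m) ∘ₗ u') := by
    rw [hcwe]
    exact Adj.comp h1 hadj
  have h3 := G.trace_corr G' hc' hcw h2
  have h4 : ((a ^ m) ∘ₗ u') ∘ₗ W.corr (W.cl (P.X.prod Q.X) c) = a ^ (m + 1) := by
    rw [LinearMap.comp_assoc, pow_succ]
    rfl
  rw [h4] at h3
  rw [h3, bf_symm (gd_prod G G') hc']
  exact bf_of_numZero (gd_prod G G') hl hc hnum hcw

/-- **A detected cycle is not numerically equivalent to zero.** -/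
theorem not_numZero_of_detected (hP : IsLefschetz W P) (hQ : IsLefschetz W Q) {l : ℕ}
    {c : (P.X.prod Q.X).Cycles} (hc : (P.X.prod Q.X).IsCyc l c)
    (h : HomDetectedSomewhere W P Q l c) : ¬ NumZero ops (P.X.prod Q.X) l c := by
  intro hnum
  obtain ⟨f, G⟩ := exists_gd hP.isCyc hP.hard hP.std
  obtain ⟨g, G'⟩ := exists_gd hQ.isCyc hQ.hard hQ.std
  have hu : AOp W P.X Q.X (W.corr (W.cl (P.X.prod Q.X) c)) := ⟨_, AS.of ⟨c, hc, rfl⟩, rfl⟩
  obtain ⟨u', hu', hadj⟩ := G.adj G' hu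
  by_cases hl : l ≤ (P.X.prod Q.X).dim
  · obtain ⟨N, hN⟩ := nilpotent_of_numZero G G' hl hc hnum hu' hadj
    exact not_nilpotent_of_detected G G' h hadj hN
  · have h1 : W.cl (P.X.prod Q.X) c = 0 := by
      have h2 := W.cl_mem hc
      rw [W.gr_eq_bot _ _ (by omega)] at h2
      exact (Submodule.mem_bot _).1 h2
    refine not_nilpotent_of_detected G G' h hadj (N := 1) ?_
    rw [h1, corr_zero, LinearMap.comp_zero, pow_one]

/-- **Positivity in codimension `l`.** -/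
theorem bf_pos_of_places (G : Gd W P.X P.D f) (G' : Gd W Q.X Q.D g) {l : ℕ}
    (h_det : ∀ v, (P.X.prod Q.X).IsCyc l v → classOf W _ v ≠ 0 → HomDetectedSomewhere W P Q l v)
    {c : (P.X.prod Q.X).Cycles} (hc : (P.X.prod Q.X).IsCyc l c) (hc0 : classOf W _ c ≠ 0) :
    ∃ q : ℚ, 0 < q ∧
      bf W (P.X.prod Q.X) (ops.pull (fst P.X Q.X) P.D + ops.pull (snd P.X Q.X) Q.D)
        (extSum W f g) (W.cl _ c) (W.cl _ c) = q := by
  have h_det' : ∀ v, IsPartialIso W P.X Q.X l v → DetectedSomewhere W P Q l v := by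
    intro v hv
    apply detected_of_hom
    apply h_det v hv.isCyc
    intro h0
    obtain ⟨a, ha⟩ := hv.ne
    apply ha
    rw [corrMap, h0, corr_zero, LinearMap.zero_apply]
  obtain ⟨q, hq, hq'⟩ := nonneg_of_places G G' h_det' hc
  rcases hq.lt_or_eq with h0 | h0
  · exact ⟨q, h0, hq'⟩
  exfalso
  have hc' : AS W _ (W.cl (P.X.prod Q.X) c) := AS.of ⟨c, hc, rfl⟩
  have hu : AOp W P.X Q.X (W.corr (W.cl (P.X.prod Q.X) c)) := ⟨_, hc', rfl⟩
  obtain ⟨u', hu', hadj⟩ := G.adj G' hu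
  have htr := trace_adj G G' hc' hadj
  rw [hq', ← h0, Rat.cast_zero] at htr
  have haop : AOp W P.X P.X (u' ∘ₗ W.corr (W.cl (P.X.prod Q.X) c)) := hu'.comp hu
  obtain ⟨N, hN⟩ := nilpotent_of_trace_zero (fun n => G.trace_rat (haop.pow n))
    (detectsEv_of_places G G' h_det' hu hu' hadj (hm_cyc hc)) htr
  exact not_nilpotent_of_detected G G' (h_det c hc hc0) hadj hN

end Core

/-- **The standard conjectures of Hodge type and D in low codimensions.** -/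
theorem hodge_and_d (P Q : Polarized 𝒱) (hP : IsLefschetz W P) (hQ : IsLefschetz W Q) (l : ℕ)
    (hl : 2 * l ≤ (P.X.prod Q.X).dim)
    (h_det : ∀ v, (P.X.prod Q.X).IsCyc l v → classOf W (P.X.prod Q.X) v ≠ 0 →
      HomDetectedSomewhere W P Q l v) :
    HomHodgeUpTo W (P.prod ops Q) l ∧ ∀ j ≤ (P.X.prod Q.X).dim,
      j ≤ l ∨ (P.X.prod Q.X).dim ≤ j + l → NumHomIn W (P.X.prod Q.X) j := by
  obtain ⟨f, G⟩ := exists_gd hP.isCyc hP.hard hP.std
  obtain ⟨g, G'⟩ := exists_gd hQ.isCyc hQ.hard hQ.std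
  have GP := gd_prod G G'
  have hH : HomHodgeUpTo W (P.prod ops Q) l := by
    intro n hn hn2 z hz hz0
    set L := LinearMap.mulLeft W.K (W.cl (P.prod ops Q).X (P.prod ops Q).D) with hL
    have h1 := bf_same GP.fr hn2 hz hz (j := l - n) (by
      change 2 * n ≤ (P.X.prod Q.X).dim at hn2
      omega)
    have hcyc : (P.X.prod Q.X).IsCyc l (divPow ops (P.prod ops Q).D (l - n) z) := by
      have := divPow_mem (ops := ops) GP.fr.hD (l - n) hz.1
      rwa [show n + (l - n) = l by omega] at this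
    have hcl := cl_divPow (W := W) (P.prod ops Q).D (l - n) z
    have hne : classOf W (P.X.prod Q.X) (divPow ops (P.prod ops Q).D (l - n) z) ≠ 0 := by
      intro h0
      apply hz0
      have h2 : (L ^ (l - n)) (W.cl (P.prod ops Q).X z) = 0 := by
        rw [← hcl]
        exact h0
      refine (GP.ls.hHL (2 * n) ?_).1 _ (W.cl_mem hz.1) ?_
      · exact hn2
      · change 2 * n ≤ (P.X.prod Q.X).dim at hn2
        change (L ^ ((P.X.prod Q.X).dim - 2 * n)) (W.cl (P.prod ops Q).X z) = 0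
        rw [show (P.X.prod Q.X).dim - 2 * n = ((P.X.prod Q.X).dim - 2 * n - (l - n)) + (l - n) by
          omega, pow_add, Module.End.mul_apply, h2, map_zero]
    obtain ⟨q, hq, hq'⟩ := bf_pos_of_places G G' h_det hcyc hne
    have h3 : bf W (P.prod ops Q).X (P.prod ops Q).D (extSum W f g)
        ((L ^ (l - n)) (W.cl (P.prod ops Q).X z)) ((L ^ (l - n)) (W.cl (P.prod ops Q).X z)) =
        q := by
      rw [← hcl]
      exact hq'
    have h5 : ((q : ℚ) : W.K) = (((l - n).factorial *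
        (((P.prod ops Q).X.dim - 2 * n - (l - n)).factorial : ℚ)⁻¹ *
        pairing ops (P.prod ops Q).X (P.prod ops Q).D n z z : ℚ) : W.K) := h3.symm.trans h1
    have h4 : q = ((l - n).factorial *
        (((P.prod ops Q).X.dim - 2 * n - (l - n)).factorial : ℚ)⁻¹) *
        pairing ops (P.prod ops Q).X (P.prod ops Q).D n z z := by exact_mod_cast h5
    rw [h4] at hq
    exact (pos_iff_pos_of_mul_pos hq).1 (by positivity)
  exact ⟨hH, fun j hj hjl => numHomIn_of_hom (P := P.prod ops Q) GP hH hj hjl⟩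

end Pool.Agent.H846.Hdt
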