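import Pool.Agent.H846.Hdt.Main
import Pool.Graph.R_pool_sql_team_seeded_b0a926ef.R911.Iso.Geo4

/-!
# The converse for the square of a variety
-/

open CategoryTheory AlgebraicGeometry Finset

universe u v

namespace Pool.Agent.H846.Hdt

open Pool.Agent.H914 Pool.Agent.H914.VarClass Pool.Agent.H914.VarClass.Obj
  Pool.Agent.H914.WeilCohomology Pool.Agent.H281R3.HT Pool.Agent.W552 Pool.Agent.W539.Ker
  Pool.Agent.R911.Iso Pool.Agent.H447 Pool.Agent.H846.Det Pool.Agent.H846.Plc

variable {k : Type u} [Field k] {𝒱 : VarClass k} {ops : CycleOps 𝒱}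
  {W : WeilCohomology.{u, v} ops}

/-- The identity comparison. -/
lemma isComparison_refl {P : Polarized 𝒱} (hD : P.X.IsCyc 1 P.D) :
    IsComparison W W P P (RingEquiv.refl W.K) (RingEquiv.refl (W.H P.X)) where
  dim_eq := rfl
  isCyc := hD
  map := ⟨fun _ _ => rfl, fun _ _ h => h, fun _ => rfl⟩
  cl_eq := rfl

/-- The trivial place. -/
def trivialPlace {P Q : Polarized 𝒱} (hP : P.X.IsCyc 1 P.D) (hQ : Q.X.IsCyc 1 Q.D) :
    Place W W P Q P Q where
  σ := RingEquiv.refl W.K
  s := RingEquiv.refl (W.H P.X)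
  t := RingEquiv.refl (W.H Q.X)
  fst := isComparison_refl hP
  snd := isComparison_refl hQ

/-- Under the standard conjecture of Hodge type for `X × X` all correspondences are detected. -/
theorem detected_of_homHodge {P : Polarized 𝒱} (hP : IsLefschetz W P)
    (h : HomHodgeUpTo W (P.prod ops P) P.X.dim) {v : (P.X.prod P.X).Cycles}
    (hv : (P.X.prod P.X).IsCyc P.X.dim v) (hv0 : classOf W (P.X.prod P.X) v ≠ 0) :
    HomDetectedSomewhere W P P P.X.dim v := by
  refine ⟨k, _, 𝒱, ops, W, P, P, P, trivialPlace hP.isCyc hP.isCyc, hP, hP, hP, v, P.X.dim,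
    P.X.dim, ops.push (diag P.X) P.X.V.fundCycle, hv, fun _ => rfl, diag_mem, rfl, h, h, ?_⟩
  by_contra h0
  push Not at h0
  apply hv0
  apply corr_inj
  apply LinearMap.ext
  intro y
  have h1 := h0 y
  rw [corrMap, corrMap, classOf, classOf, corr_diag_one, Module.End.one_apply] at h1
  exact h1.trans (LinearMap.zero_apply y).symm

end Pool.Agent.H846.Hdt
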