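import Pool.Agent.H846.Hdt.Defs
import Pool.Agent.H846.Plc.Main

/-!
# Positivity on the algebraic classes of one codimension, for homological equivalence
-/

open CategoryTheory AlgebraicGeometry Finset

universe u v

namespace Pool.Agent.H846.Hdt

open Pool.Agent.H914 Pool.Agent.H914.VarClass Pool.Agent.H914.VarClass.Obj
  Pool.Agent.H914.WeilCohomology Pool.Agent.H281R3.HT Pool.Agent.W552 Pool.Agent.W539.Ker
  Pool.Agent.R911.Iso Pool.Agent.H447 Pool.Agent.H846.Det Pool.Agent.H846.Plc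

variable {k : Type u} [Field k] {𝒱 : VarClass k} {ops : CycleOps 𝒱}
  {W : WeilCohomology.{u, v} ops} {X : 𝒱.Obj} {D : X.Cycles} {f : Module.End W.K (W.H X)}

/-- **The Hodge-Riemann form is positive on the nonzero algebraic classes of codimension `j` if
the homological form of the standard conjecture of Hodge type holds in the codimensions at most
`min j (dim X - j)`.** -/
theorem bf_pos_codim {Z : 𝒱.Obj} {E : Z.Cycles} {g : Module.End W.K (W.H Z)} (F : Fr W Z E g)
    {l j : ℕ} (hjl : j ≤ l ∨ Z.dim ≤ j + l)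
    (hH : ∀ n ≤ l, 2 * n ≤ Z.dim → ∀ z, Primitive W Z E n z → W.cl Z z ≠ 0 →
      0 < pairing ops Z E n z z) {c : W.H Z} (hc : c ∈ algClasses W Z j) (hc0 : c ≠ 0) :
    ∃ q : ℚ, 0 < q ∧ bf W Z E g c c = q := by
  set L := LinearMap.mulLeft W.K (W.cl Z E) with hL
  obtain ⟨u, hu, hs⟩ := (ap_alg F).decomp (mulLeft_isHom F.hD) W_hbd hc
  rw [← hL] at hu hs
  have key : ∀ b ∈ range (j + 1), (L ^ b) (u b) = 0 ∨ ∃ z, Primitive W Z E (j - b) z ∧
      u b = W.cl Z z ∧ 2 * (j - b) ≤ Z.dim ∧ b ≤ Z.dim - 2 * (j - b) := by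
    intro b hb
    rw [Finset.mem_range] at hb
    obtain ⟨h1, h2, h3⟩ := hu b (by omega)
    by_cases h0 : (L ^ b) (u b) = 0
    · exact Or.inl h0
    right
    have hv0 : u b ≠ 0 := by rintro h; apply h0; rw [h, map_zero]
    have h4 := h2 hv0
    have h5 : b ≤ Z.dim - 2 * (j - b) := by
      by_contra h6
      exact h0 (L_pow_gt (n := Z.dim) (i := 2 * (j - b)) h3 (by omega))
    obtain ⟨z, hz, hz'⟩ := h1
    refine ⟨z, ⟨hz, ?_⟩, hz'.symm, h4, h5⟩
    rw [cl_divPow, hz']; exact h3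
  have hcross : ∀ b ∈ range (j + 1), ∀ b' ∈ range (j + 1), b ≠ b' →
      bf W Z E g ((L ^ b) (u b)) ((L ^ b') (u b')) = 0 := by
    intro b hb b' hb' hne
    rcases key b hb with h0 | ⟨z, hz, hvz, h1, h2⟩
    · rw [h0, map_zero, LinearMap.zero_apply]
    rcases key b' hb' with h0 | ⟨z', hz', hvz', h1', h2'⟩
    · rw [h0, map_zero]
    rw [hvz, hvz']
    rw [Finset.mem_range] at hb hb'
    exact bf_cross F h1 h1' (by omega) hz hz' (by omega) h2'
  have hdiag : ∀ b ∈ range (j + 1), ∃ q : ℚ, 0 ≤ q ∧ ((L ^ b) (u b) ≠ 0 → 0 < q) ∧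
      bf W Z E g ((L ^ b) (u b)) ((L ^ b) (u b)) = q := by
    intro b hb
    by_cases h00 : (L ^ b) (u b) = 0
    · exact ⟨0, le_rfl, fun h => absurd h00 h, by rw [h00]; simp⟩
    rcases key b hb with h0 | ⟨z, hz, hvz, h1, h2⟩
    · exact absurd h0 h00
    · rw [Finset.mem_range] at hb
      have hz0 : W.cl Z z ≠ 0 := by
        intro h
        apply h00
        rw [hvz, h, map_zero]
      have hp : 0 < b.factorial * ((Z.dim - 2 * (j - b) - b).factorial : ℚ)⁻¹ *
          pairing ops Z E (j - b) z z :=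
        mul_pos (by positivity) (hH _ (by omega) h1 z hz hz0)
      refine ⟨_, hp.le, fun _ => hp, ?_⟩
      rw [hvz]
      exact bf_same F h1 hz hz h2
  choose! q hq hq1 hq' using hdiag
  refine ⟨∑ b ∈ range (j + 1), q b, ?_, ?_⟩
  · have hex : ∃ b ∈ range (j + 1), (L ^ b) (u b) ≠ 0 := by
      by_contra h0
      push Not at h0
      apply hc0
      rw [hs, Finset.sum_eq_zero h0]
    obtain ⟨b, hb, hb0⟩ := hex
    exact Finset.sum_pos' hq ⟨b, hb, hq1 b hb hb0⟩
  · rw [hs, map_sum, Rat.cast_sum]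
    apply Finset.sum_congr rfl
    intro b hb
    rw [map_sum, LinearMap.sum_apply, Finset.sum_eq_single b, hq' b hb]
    · intro b' hb' hne
      exact hcross b' hb' b hb hne
    · intro h; exact absurd hb h

/-- The homological form implies the numerical form. -/
lemma hodgeUpTo_of_hom {P : Polarized 𝒱} {l : ℕ} (h : HomHodgeUpTo W P l) :
    HodgeUpTo W P l := by
  intro n hn hn2 z hz hnz
  apply h n hn hn2 z hz
  intro h0
  apply hnz
  intro w hw
  have h2 := ops.mul_mem hz.1 hw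
  rw [show n + (P.X.dim - n) = P.X.dim by omega] at h2
  have h3 := W.tr_cl h2
  have h0' : W.cl P.X z = 0 := h0
  rw [W.cl_mul, h0', zero_mul, map_zero] at h3
  exact_mod_cast h3.symm

/-- Under the homological form numerically trivial cycles are homologically trivial. -/
lemma numHomIn_of_hom {P : Polarized 𝒱} {f : Module.End W.K (W.H P.X)} (G : Gd W P.X P.D f)
    {l j : ℕ}
    (h : HomHodgeUpTo W P l) (hj : j ≤ P.X.dim) (hjl : j ≤ l ∨ P.X.dim ≤ j + l) :
    NumHomIn W P.X j := by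
  intro z hz hnum
  by_contra h0
  obtain ⟨q, hq, hq'⟩ := bf_pos_codim G.fr hjl h (c := W.cl P.X z) ⟨z, hz, rfl⟩ h0
  have h1 := bf_of_numZero G hj hz hnum (AS.of (W := W) ⟨z, hz, rfl⟩)
  rw [hq'] at h1
  exact hq.ne' (by exact_mod_cast h1)

end Pool.Agent.H846.Hdt
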