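import Pool.Agent.H846.Plc.Defs

/-!
# Detection of correspondences at places, for homological equivalence: definitions
-/

open CategoryTheory AlgebraicGeometry

universe u v

namespace Pool.Agent.H846.Hdt

open Pool.Agent.H914 Pool.Agent.H914.VarClass Pool.Agent.H914.VarClass.Obj
  Pool.Agent.H281R3.HT Pool.Agent.R911.Iso Pool.Agent.W539.Ker Pool.Agent.H846.Det
  Pool.Agent.H846.Plc

variable {k : Type u} [Field k] {𝒱 : VarClass k} {ops : CycleOps 𝒱}
  {k₀ : Type u} [Field k₀] {𝒱₀ : VarClass k₀} {ops₀ : CycleOps 𝒱₀}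

/-- The standard conjecture of Hodge type in codimension `n` for the polarized variety `P`, for
homological equivalence: the number `(-1) ^ n deg (z · D ^ (dim X - 2 n) · z)` is positive for
all cycles `z` of codimension `n` whose class is primitive and not zero. -/
def HomHodgeIn (W : WeilCohomology.{u, v} ops) (P : Polarized 𝒱) (n : ℕ) : Prop :=
  ∀ z, Primitive W P.X P.D n z → classOf W P.X z ≠ 0 → 0 < pairing ops P.X P.D n z z

/-- The standard conjecture of Hodge type for `P` in the codimensions `n ≤ l` (with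
`2 n ≤ dim X`), for homological equivalence. -/
def HomHodgeUpTo (W : WeilCohomology.{u, v} ops) (P : Polarized 𝒱) (l : ℕ) : Prop :=
  ∀ n ≤ l, 2 * n ≤ P.X.dim → HomHodgeIn W P n

/-- The cycles of codimension `n` on `X` which are numerically equivalent to zero are
homologically equivalent to zero. -/
def NumHomIn (W : WeilCohomology.{u, v} ops) (X : 𝒱.Obj) (n : ℕ) : Prop :=
  ∀ z, X.IsCyc n z → NumZero ops X n z → classOf W X z = 0

/-- The correspondence `v` of codimension `l` from `X` to `Y` is detected by a cycle `z` of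
codimension `p` on `Z × X₀` at a place `(X₀, Y₀)`: `v` corresponds to a correspondence `v₀` from
`X₀` to `Y₀`, the composition of the correspondence `z` from `Z` to `X₀` with `v₀` (of codimension
`r` on `Z × Y₀`) does not vanish on the cohomology of `Z`, and the standard conjecture of Hodge
type (for homological equivalence) holds for `Z × X₀` in the codimensions at most `p` and for
`Z × Y₀` in the codimensions at most `r`. -/
def HomDetectedAt {W : WeilCohomology.{u, v} ops} {W₀ : WeilCohomology.{u, v} ops₀}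
    {P Q : Polarized 𝒱} {P₀ Q₀ : Polarized 𝒱₀} (S : Place W W₀ P Q P₀ Q₀)
    (Z : Polarized 𝒱₀) (l : ℕ) (v : (P.X.prod Q.X).Cycles) : Prop :=
  ∃ (v₀ : (P₀.X.prod Q₀.X).Cycles) (p r : ℕ) (z : (Z.X.prod P₀.X).Cycles),
    (P₀.X.prod Q₀.X).IsCyc l v₀ ∧ SpecializesTo S.s S.t v v₀ ∧
    (Z.X.prod P₀.X).IsCyc p z ∧ p + l = r + P₀.X.dim ∧
    HomHodgeUpTo W₀ (Z.prod ops₀ P₀) p ∧ HomHodgeUpTo W₀ (Z.prod ops₀ Q₀) r ∧
    ∃ y, corrMap W₀ v₀ (corrMap W₀ z y) ≠ 0

/-- The correspondence `v` of codimension `l` from `X` to `Y` is detected: there are a place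
`(X₀, Y₀)` and a variety `Z` over some field `k₀`, all satisfying the Lefschetz standard
conjecture, such that `v` is detected by an algebraic cycle on `Z × X₀`. -/
def HomDetectedSomewhere (W : WeilCohomology.{u, v} ops) (P Q : Polarized 𝒱) (l : ℕ)
    (v : (P.X.prod Q.X).Cycles) : Prop :=
  ∃ (k₀ : Type u) (_ : Field k₀) (𝒱₀ : VarClass k₀) (ops₀ : CycleOps 𝒱₀)
    (W₀ : WeilCohomology.{u, v} ops₀) (P₀ Q₀ Z : Polarized 𝒱₀)
    (S : Place W W₀ P Q P₀ Q₀),
    IsLefschetz W₀ P₀ ∧ IsLefschetz W₀ Q₀ ∧ IsLefschetz W₀ Z ∧ HomDetectedAt S Z l v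

/-- All correspondences of codimension `l` from `X` to `Y` which are not homologically equivalent
to zero are detected (at places which may depend on the correspondence). -/
def AllDetected (W : WeilCohomology.{u, v} ops) (P Q : Polarized 𝒱) (l : ℕ) : Prop :=
  ∀ v, (P.X.prod Q.X).IsCyc l v → classOf W (P.X.prod Q.X) v ≠ 0 →
    HomDetectedSomewhere W P Q l v

end Pool.Agent.H846.Hdt
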