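import Pool.Agent.H846.Hdt.SpanDefs
import Pool.Agent.H846.Hdt.Main

/-!
# Detection of correspondences if the cohomology is spanned by classes which become algebraic
-/

open CategoryTheory AlgebraicGeometry

universe u v

namespace Pool.Agent.H846.Hdt

open Pool.Agent.H914 Pool.Agent.H914.VarClass Pool.Agent.H914.VarClass.Obj
  Pool.Agent.H914.WeilCohomology Pool.Agent.H281R3.HT Pool.Agent.H846.Det Pool.Agent.H846.Plc

variable {k : Type u} [Field k] {𝒱 : VarClass k} {ops : CycleOps 𝒱}
  {W : WeilCohomology.{u, v} ops} {P Q : Polarized 𝒱} {l : ℕ}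

/-- A correspondence which does not kill a class that becomes algebraic is detected. -/
theorem detected_of_becomes {v : (P.X.prod Q.X).Cycles} (hv : (P.X.prod Q.X).IsCyc l v)
    {w : W.H P.X} (hw : BecomesAlgebraic W P Q l w) (hvw : corrMap W v w ≠ 0) :
    HomDetectedSomewhere W P Q l v := by
  obtain ⟨k₀, _, 𝒱₀, ops₀, W₀, P₀, Q₀, Z, S, hP₀, hQ₀, hZ, hspec, p, r, z, y, hz, hpr, hZP, hZQ,
    hy⟩ := hw
  obtain ⟨v₀, hv₀, hvv⟩ := hspec v hv
  refine ⟨k₀, _, 𝒱₀, ops₀, W₀, P₀, Q₀, Z, S, hP₀, hQ₀, hZ, v₀, p, r, z, hv₀, hvv, hz, hpr, hZP,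
    hZQ, y, ?_⟩
  rw [← hy, ← hvv w]
  intro h0
  apply hvw
  have h1 : S.t (corrMap W v w) = S.t 0 := by
    rw [map_zero]
    exact h0
  exact S.t.injective h1

/-- **Cohomology spanned by classes which become algebraic.** -/
theorem allDetected_of_spanned (h : SpannedBySpecialisations W P Q l) : AllDetected W P Q l := by
  intro v hv hv0
  by_contra hnot
  apply hv0
  have key : ∀ x : W.H P.X, corrMap W v x = 0 := by
    intro x
    have hx : x ∈ Submodule.span W.K {y | ∃ g h w, IsSymmetry W P Q l g h ∧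
        BecomesAlgebraic W P Q l w ∧ isoMap g w = y} := h x
    refine Submodule.span_induction (p := fun x _ => corrMap W v x = 0) ?_ ?_ ?_ ?_ hx
    · rintro _ ⟨g, g', w, hg, hw, rfl⟩
      have h1 := hg v hv w
      have h2 : corrMap W v w = 0 := by
        by_contra h3
        exact hnot (detected_of_becomes hv hw h3)
      rw [← h1, h2]
      exact map_zero g'
    · exact map_zero _
    · intro a b _ _ ha hb
      rw [corrMap, map_add]
      rw [corrMap] at ha hb
      rw [ha, hb, add_zero]
    · intro c a _ ha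
      rw [corrMap, map_smul]
      rw [corrMap] at ha
      rw [ha, smul_zero]
  apply corr_inj
  apply LinearMap.ext
  intro y
  exact (key y).trans (LinearMap.zero_apply y).symm

end Pool.Agent.H846.Hdt
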