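import Pool.Agent.H846.Hdt.IrrDefs
import Pool.Agent.H846.Hdt.Span
import Pool.Agent.H846.Hdt.Square
import Pool.Agent.H846.Bdeg.One

/-!
# Surfaces whose transcendental classes are reached by divisors at places
-/

open CategoryTheory AlgebraicGeometry

universe u v

namespace Pool.Agent.H846.Hdt

open Pool.Agent.H914 Pool.Agent.H914.VarClass Pool.Agent.H914.VarClass.Obj
  Pool.Agent.H914.WeilCohomology Pool.Agent.H281R3.HT Pool.Agent.W552 Pool.Agent.W539.Ker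
  Pool.Agent.R911.Iso Pool.Agent.H447 Pool.Agent.H846.Det Pool.Agent.H846.Plc Pool.Agent.H846.Deg2

variable {k : Type u} [Field k] {𝒱 : VarClass k} {ops : CycleOps 𝒱}
  {W : WeilCohomology.{u, v} ops} {P Q : Polarized 𝒱} {l : ℕ}

lemma tr_one {Z : 𝒱.Obj} (hZ : Z.dim = 0) : W.tr Z 1 = 1 := by
  have h1 : Z.IsCyc Z.dim Z.V.fundCycle := by
    have h := Z.V.fundCycle_mem
    rw [hZ]
    exact h
  have h2 := W.tr_cl h1
  rw [W.cl_fund] at h2
  rw [h2]
  have h3 : Z.V.degCycle Z.V.fundCycle = 1 := by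
    rw [SmVar.degCycle, SmVar.fundCycle]
    exact Finsupp.sum_single_index rfl
  rw [h3, Rat.cast_one]

/-- A point satisfies the Lefschetz standard conjecture. -/
lemma isLefschetz_point {Z : 𝒱.Obj} (hZ : Z.dim = 0) : IsLefschetz W (⟨Z, 0⟩ : Polarized 𝒱) where
  isCyc := SmVar.IsCyc.zero _ _
  hard := by
    intro i hi
    have hi0 : i = 0 := by
      have : i ≤ Z.dim := hi
      omega
    subst hi0
    change (∀ a ∈ W.gr Z 0, ((LinearMap.mulLeft W.K (W.cl Z 0)) ^ (Z.dim - 0)) a = 0 → a = 0) ∧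
      ∀ b ∈ W.gr Z (2 * Z.dim - 0), ∃ a ∈ W.gr Z 0,
        ((LinearMap.mulLeft W.K (W.cl Z 0)) ^ (Z.dim - 0)) a = b
    rw [hZ]
    exact ⟨fun a _ h => h, fun b hb => ⟨b, hb, rfl⟩⟩
  std := by
    refine ⟨0, SmVar.IsCyc.zero _ _, ?_⟩
    intro i hi a ha _
    have hi0 : i ≤ Z.dim := hi
    refine ⟨?_, fun j hj => ?_⟩
    · change W.corr (W.cl (Z.prod Z) 0) a = 0
      rw [map_zero, corr_zero, LinearMap.zero_apply]
    · have hj' : j < Z.dim - i := hj
      omega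

/-- Every class of `Z × Y`, `Z` a point, comes from `Y`. -/
lemma eq_map_snd {Z Y : 𝒱.Obj} (hZ : Z.dim = 0) (x : W.H (Z.prod Y)) :
    x = W.map (snd Z Y) (W.push (snd Z Y) x) := by
  refine W.kunneth_induction (p := fun x => x = W.map (snd Z Y) (W.push (snd Z Y) x)) ?_ ?_ x
  · intro a b ha hb
    rw [map_add, map_add, ← ha, ← hb]
  · intro i j a ha b _
    rw [push_snd]
    rcases Nat.eq_zero_or_pos i with rfl | hi
    · rw [W.gr_zero, Submodule.mem_span_singleton] at ha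
      obtain ⟨c, rfl⟩ := ha
      have h1 : W.tr Z (c • (1 : W.H Z)) = c := by
        rw [map_smul, tr_one hZ, smul_eq_mul, mul_one]
      rw [h1, map_smul, map_smul, map_one, smul_mul_assoc, one_mul]
    · have h1 : a = 0 := by
        have h2 := W.gr_eq_bot Z i (by omega)
        rw [h2] at ha
        exact (Submodule.mem_bot W.K).1 ha
      rw [h1, map_zero, zero_mul, map_zero, zero_smul, map_zero]

/-- The pairings on `Z × Y`, `Z` a point. -/
lemma pairing_point_aux {Z Y : 𝒱.Obj} (hZ : Z.dim = 0) {D : Y.Cycles} (hD : Y.IsCyc 1 D)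
    {E : (Z.prod Y).Cycles} (hE1 : (Z.prod Y).IsCyc 1 E)
    (hE : W.cl (Z.prod Y) E = W.map (snd Z Y) (W.cl Y D)) {n : ℕ}
    {z : (Z.prod Y).Cycles} (hz : Primitive W (Z.prod Y) E n z)
    (h : Primitive W Y D n (ops.push (snd Z Y) z) →
      0 < pairing ops Y D n (ops.push (snd Z Y) z) (ops.push (snd Z Y) z))
    (hn2 : 2 * n ≤ Y.dim) :
    0 < pairing ops (Z.prod Y) E n z z := by
  have hdim : (Z.prod Y).dim = Y.dim := by
    change Z.dim + Y.dim = Y.dim
    omega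
  obtain ⟨hzc, hzp⟩ := hz
  have hwc : Y.IsCyc n (ops.push (snd Z Y) z) :=
    ops.push_mem (snd Z Y) hzc (by rw [hdim, add_comm])
  set w := ops.push (snd Z Y) z with hw
  have hcl : W.cl (Z.prod Y) z = W.map (snd Z Y) (W.cl Y w) := by
    rw [hw, W.cl_push]
    exact eq_map_snd hZ _
  have hinj : Function.Injective (W.map (snd Z Y)) := by
    rw [injective_iff_map_eq_zero]
    intro a ha
    have h1 := push_snd (W := W) (1 : W.H Z) a
    rw [ha, mul_zero, map_zero, tr_one hZ, one_smul] at h1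
    exact h1.symm
  have hpow : ∀ m, W.cl (Z.prod Y) (divPow ops E m z) =
      W.map (snd Z Y) (W.cl Y (divPow ops D m w)) := by
    intro m
    rw [cl_divPow, cl_divPow, LinearMap.pow_mulLeft, LinearMap.pow_mulLeft,
      LinearMap.mulLeft_apply, LinearMap.mulLeft_apply, hcl, hE, map_mul, map_pow]
  have hwp : Primitive W Y D n w := by
    refine ⟨hwc, ?_⟩
    apply hinj
    rw [map_zero, ← hpow]
    rwa [hdim] at hzp
  have hpos := h hwp
  have key : pairing ops (Z.prod Y) E n z z = pairing ops Y D n w w := by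
    rw [pairing, pairing]
    congr 1
    have e1 := ops.mul_mem hzc (divPow_mem (ops := ops) hE1 ((Z.prod Y).dim - 2 * n) hzc)
    have e2 := ops.mul_mem hwc (divPow_mem (ops := ops) hD (Y.dim - 2 * n) hwc)
    rw [show n + (n + ((Z.prod Y).dim - 2 * n)) = (Z.prod Y).dim by omega] at e1
    rw [show n + (n + (Y.dim - 2 * n)) = Y.dim by omega] at e2
    have h1 := W.tr_cl e1
    have h2 := W.tr_cl e2
    have h3 : (((Z.prod Y).V.degCycle (ops.mul z (divPow ops E ((Z.prod Y).dim - 2 * n) z)) :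
        ℚ) : W.K) = (Y.V.degCycle (ops.mul w (divPow ops D (Y.dim - 2 * n) w)) : ℚ) := by
      rw [← h1, ← h2, W.cl_mul, W.cl_mul, hpow, hcl, hdim, ← map_mul]
      have h4 := W.tr_prod (X := Z) (Y := Y) 1
        (W.cl Y w * W.cl Y (divPow ops D (Y.dim - 2 * n) w))
      rw [map_one, one_mul, tr_one hZ, one_mul] at h4
      exact h4
    exact_mod_cast h3
  rw [key]
  exact hpos

/-- The pairings on `Z × Y`, `Z` a point. -/
lemma pairing_point {Z Y : 𝒱.Obj} (hZ : Z.dim = 0) {D : Y.Cycles} (hD : Y.IsCyc 1 D)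
    {E : (Z.prod Y).Cycles} (hE1 : (Z.prod Y).IsCyc 1 E)
    (hE : W.cl (Z.prod Y) E = W.map (snd Z Y) (W.cl Y D)) {n : ℕ}
    (h : 2 * n ≤ Y.dim → ∀ w, Primitive W Y D n w → W.cl Y w ≠ 0 → 0 < pairing ops Y D n w w)
    (hn2 : 2 * n ≤ (Z.prod Y).dim) {z : (Z.prod Y).Cycles} (hz : Primitive W (Z.prod Y) E n z)
    (hz0 : W.cl (Z.prod Y) z ≠ 0) : 0 < pairing ops (Z.prod Y) E n z z := by
  have hn2' : 2 * n ≤ Y.dim := by
    change 2 * n ≤ Z.dim + Y.dim at hn2
    omega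
  refine pairing_point_aux hZ hD hE1 hE hz (fun hwp => h hn2' _ hwp ?_) hn2'
  intro h0
  apply hz0
  rw [eq_map_snd hZ (W.cl (Z.prod Y) z), ← W.cl_push, h0, map_zero]

/-- The standard conjecture of Hodge type for `Z × Y`, `Z` a point. -/
lemma hodge_point {Z : 𝒱.Obj} (hZ : Z.dim = 0) (hQ : Q.X.IsCyc 1 Q.D) (h : HomHodgeUpTo W Q l) :
    HomHodgeUpTo W ((⟨Z, 0⟩ : Polarized 𝒱).prod ops Q) l := by
  intro n hn hn2 z hz hz0
  have hE : W.cl (Z.prod Q.X) (ops.pull (fst Z Q.X) 0 + ops.pull (snd Z Q.X) Q.D) =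
      W.map (snd Z Q.X) (W.cl Q.X Q.D) := by
    rw [map_add, W.cl_pull, W.cl_pull, map_zero, map_zero, zero_add]
  have hE1 : (Z.prod Q.X).IsCyc 1 (ops.pull (fst Z Q.X) 0 + ops.pull (snd Z Q.X) Q.D) :=
    SmVar.IsCyc.add (ops.pull_mem _ (SmVar.IsCyc.zero _ _)) (ops.pull_mem _ hQ)
  exact pairing_point hZ hQ hE1 hE (fun h2 => h n hn h2) hn2 hz hz0

variable {k₀ : Type u} [Field k₀] {𝒱₀ : VarClass k₀} {ops₀ : CycleOps 𝒱₀}
  {W₀ : WeilCohomology.{u, v} ops₀} {P₀ Q₀ : Polarized 𝒱₀}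

/-- A class which corresponds to an algebraic class is algebraic at the place. -/
lemma algebraicAt_of_cycle {S : Place W W₀ P Q P₀ Q₀} (hl : 2 ≤ l) (hdim : P.X.dim = 2)
    (hK : IsKnown W₀ P₀ Q₀ l) {Z : 𝒱₀.Obj} (hZ : Z.dim = 0)
    (hspec : ∀ v, (P.X.prod Q.X).IsCyc l v →
      ∃ v₀, (P₀.X.prod Q₀.X).IsCyc l v₀ ∧ SpecializesTo S.s S.t v v₀)
    {x : W.H P.X} {p : ℕ} (hp : p ≤ 2) {c : P₀.X.Cycles} (hc : P₀.X.IsCyc p c)
    (hx : isoMap S.s x = classOf W₀ P₀.X c) : AlgebraicAt S ⟨Z, 0⟩ l x := by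
  have hd0 : P₀.X.dim = 2 := by rw [S.fst.dim_eq, hdim]
  refine ⟨hspec, p, p + l - 2, ops₀.pull (snd Z P₀.X) c, 1, ops₀.pull_mem _ hc, by omega, ?_, ?_,
    ?_⟩
  · intro n hn hn2
    have h2 : 2 * n ≤ Z.dim + P₀.X.dim := hn2
    exact hodge_point hZ hK.fst.isCyc hK.index n (by omega) hn2
  · intro n hn hn2
    exact hodge_point hZ hK.snd.isCyc hK.hodge n (by omega) hn2
  · rw [hx]
    change W₀.cl P₀.X c = W₀.corr (W₀.cl (Z.prod P₀.X) (ops₀.pull (snd Z P₀.X) c)) 1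
    rw [W₀.cl_pull, corr_apply, map_one, mul_one]
    have h1 := push_snd (W := W₀) (1 : W₀.H Z) (W₀.cl P₀.X c)
    rw [map_one, one_mul, tr_one hZ, one_smul] at h1
    exact h1.symm

/-- A class which corresponds to an algebraic class at a place becomes algebraic. -/
lemma becomes_of_cycle {S : Place W W₀ P Q P₀ Q₀} (hl : 2 ≤ l) (hdim : P.X.dim = 2)
    (hK : IsKnown W₀ P₀ Q₀ l)
    (hspec : ∀ v, (P.X.prod Q.X).IsCyc l v →
      ∃ v₀, (P₀.X.prod Q₀.X).IsCyc l v₀ ∧ SpecializesTo S.s S.t v v₀)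
    {x : W.H P.X} {p : ℕ} (hp : p ≤ 2) {c : P₀.X.Cycles} (hc : P₀.X.IsCyc p c)
    (hx : isoMap S.s x = classOf W₀ P₀.X c) : BecomesAlgebraic W P Q l x := by
  obtain ⟨Z, hZ⟩ := hK.point
  exact ⟨k₀, _, 𝒱₀, ops₀, W₀, P₀, Q₀, ⟨Z, 0⟩, S, hK.fst, hK.snd, isLefschetz_point hZ,
    algebraicAt_of_cycle hl hdim hK hZ hspec hp hc hx⟩

/-- The composition of symmetries. -/
lemma isSymmetry_trans {g g' : CohIso W W P.X P.X} {h h' : CohIso W W Q.X Q.X}
    (hg : IsSymmetry W P Q l g h) (hg' : IsSymmetry W P Q l g' h') :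
    IsSymmetry W P Q l (g.trans g') (h.trans h') := by
  intro v hv a
  change h' (h (corrMap W v a)) = corrMap W v (g' (g a))
  have h1 := hg v hv a
  have h2 := hg' v hv (g a)
  change h (corrMap W v a) = corrMap W v (g a) at h1
  change h' (corrMap W v (g a)) = corrMap W v (g' (g a)) at h2
  rw [h1, h2]

/-- The span of the images of the classes which become algebraic. -/
noncomputable def algSpan (W : WeilCohomology.{u, v} ops) (P Q : Polarized 𝒱) (l : ℕ) :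
    Submodule W.K (W.H P.X) :=
  Submodule.span W.K {y | ∃ g h w, IsSymmetry W P Q l g h ∧ BecomesAlgebraic W P Q l w ∧
    isoMap g w = y}

lemma mem_algSpan {x : W.H P.X} (hx : BecomesAlgebraic W P Q l x) : x ∈ algSpan W P Q l :=
  Submodule.subset_span ⟨RingEquiv.refl _, RingEquiv.refl _, x, fun _ _ _ => rfl, hx, rfl⟩

/-- The span is stable under symmetries. -/
lemma algSpan_stable {g : CohIso W W P.X P.X} {h : CohIso W W Q.X Q.X}
    {σ : CoefIso W W} (hσ : IsComparison W W P P σ g) (hg : IsSymmetry W P Q l g h) {x : W.H P.X}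
    (hx : x ∈ algSpan W P Q l) : g x ∈ algSpan W P Q l := by
  refine Submodule.span_induction (p := fun x _ => g x ∈ algSpan W P Q l) ?_ ?_ ?_ ?_ hx
  · rintro _ ⟨g', h', w, hg', hw, rfl⟩
    exact Submodule.subset_span ⟨g'.trans g, h'.trans h, w, isSymmetry_trans hg' hg, hw, rfl⟩
  · rw [map_zero]
    exact Submodule.zero_mem _
  · intro a b _ _ ha hb
    rw [map_add]
    exact Submodule.add_mem _ ha hb
  · intro c a _ ha
    rw [hσ.map.smul]
    exact Submodule.smul_mem _ _ ha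

/-- The decomposition of `H^2` of a surface. -/
lemma decomp_surface (hdim : P.X.dim = 2) (hP : IsLefschetz W P) (hH : HomHodgeUpTo W P 1)
    {y : W.H P.X} (hy : y ∈ W.gr P.X 2) :
    ∃ a τ, a ∈ Submodule.span W.K (divisorClasses W P) ∧ InTranscendental W P τ ∧ y = a + τ := by
  have hy' : InDegree W P.X (2 * P.X.dim - 2) y := by
    change y ∈ W.gr P.X (2 * P.X.dim - 2)
    rwa [hdim]
  obtain ⟨a, τ, ha, ⟨hτ, hτ'⟩, h⟩ := Bdeg.exists_decomp hP.isCyc hP.hard (by omega) hH hy'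
  refine ⟨a, τ, ?_, ⟨?_, ?_⟩, h⟩
  · rw [Bdeg.InDivisorSpan, Bdeg.divisorCurves, show P.X.dim - 2 = 0 by omega] at ha
    refine Submodule.span_mono ?_ ha
    rintro _ ⟨w, hw, rfl⟩
    refine ⟨w, hw, ?_⟩
    change _ = W.cl P.X P.D ^ 0 * classOf W P.X w
    rw [pow_zero, one_mul]
  · change τ ∈ W.gr P.X (2 * P.X.dim - 2) at hτ
    rw [hdim] at hτ
    exact hτ
  · rintro _ ⟨w, hw, rfl⟩
    exact hτ' w hw

/-- The second cohomology is contained in the span. -/
lemma span_of_jumps {A : Submodule W.K (W.H P.X)} (hdim : P.X.dim = 2)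
    (hP : IsLefschetz W P) (hH : HomHodgeUpTo W P 1) {J : W.H P.X → Prop}
    (hirr : EnoughOutside W.K (InTranscendental W P) J (divisorClasses W P)
      fun φ => ∃ g, Extends W P Q l g ∧ isoMap g = φ)
    (hNS : ∀ a ∈ Submodule.span W.K (divisorClasses W P), a ∈ A)
    (hA : ∀ (g : CohIso W W P.X P.X) (σ : CoefIso W W) (h : CohIso W W Q.X Q.X),
      IsComparison W W P P σ g → IsSymmetry W P Q l g h → ∀ y ∈ A, g y ∈ A)
    (hJ : ∀ x, J x → x ∈ W.gr P.X 2 ∧ x ∈ A) (y : W.H P.X) (hy : OfDegree W P.X 2 y) : y ∈ A := by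
  let U : Submodule W.K (W.H P.X) :=
    { carrier := {y | InTranscendental W P y ∧ y ∈ A}
      zero_mem' := ⟨⟨Submodule.zero_mem (W.gr P.X 2), fun w _ => by rw [zero_mul, map_zero]⟩,
        Submodule.zero_mem _⟩
      add_mem' := by
        rintro a b ⟨⟨ha1, ha2⟩, ha3⟩ ⟨⟨hb1, hb2⟩, hb3⟩
        exact ⟨⟨Submodule.add_mem (W.gr P.X 2) ha1 hb1, fun w hw => by
          rw [add_mul, map_add, ha2 w hw, hb2 w hw, add_zero]⟩, Submodule.add_mem _ ha3 hb3⟩
      smul_mem' := by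
        rintro c a ⟨⟨ha1, ha2⟩, ha3⟩
        exact ⟨⟨Submodule.smul_mem (W.gr P.X 2) _ ha1, fun w hw => by
          rw [smul_mul_assoc, map_smul, ha2 w hw, smul_zero]⟩, Submodule.smul_mem _ _ ha3⟩ }
  have hU : ∀ φ, (∃ g, Extends W P Q l g ∧ isoMap g = φ) → ∀ y ∈ U, φ y ∈ U := by
    rintro _ ⟨g, ⟨⟨σ, hσ⟩, hfix, h', hg⟩, rfl⟩ y ⟨⟨hy1, hy2⟩, hy3⟩
    refine ⟨⟨hσ.map.mem _ _ hy1, ?_⟩, hA g σ h' hσ hg y hy3⟩
    rintro _ ⟨w, hw, rfl⟩
    have e2 := hσ.map.tr_eq (y * classOf W P.X w)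
    rw [hy2 _ ⟨w, hw, rfl⟩, map_zero, map_mul] at e2
    have e3 := hfix w hw
    rw [isoMap] at e3
    rw [e3] at e2
    exact e2
  obtain ⟨a, τ, ha, hτ, rfl⟩ := decomp_surface hdim hP hH hy
  refine Submodule.add_mem _ (hNS a ha) ?_
  rcases hirr U (fun y hy => hy.1) hU with e | ⟨x, hx, hxU⟩
  · exact (e τ hτ).2
  · exfalso
    apply hxU
    obtain ⟨hx2, hxA⟩ := hJ x hx
    obtain ⟨a', τ', ha', hτ', rfl⟩ := decomp_surface hdim hP hH hx2
    refine Submodule.add_mem_sup ha' ⟨hτ', ?_⟩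
    have := Submodule.sub_mem _ hxA (hNS a' ha')
    rwa [add_sub_cancel_left] at this

/-- A class which corresponds to a divisor is in `H^2(X)`. -/
lemma gr_of_divisor {k₀ : Type u} [Field k₀] {𝒱₀ : VarClass k₀} {ops₀ : CycleOps 𝒱₀}
    {W₀ : WeilCohomology.{u, v} ops₀} {P₀ Q₀ : Polarized 𝒱₀} (S : Place W W₀ P Q P₀ Q₀)
    {x : W.H P.X} {c : P₀.X.Cycles} (hc : P₀.X.IsCyc 1 c)
    (hxc : isoMap S.s x = classOf W₀ P₀.X c) : x ∈ W.gr P.X 2 := by
  have e1 := W₀.cl_mem hc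
  have e2 := symm_mem S.fst e1
  have e3 : S.s.symm (W₀.cl P₀.X c) = x := by
    apply S.s.injective
    rw [S.s.apply_symm_apply]
    exact hxc.symm
  rw [e3] at e2
  exact e2

/-- A subspace of the cohomology of a surface. -/
lemma surface_span (A : Submodule W.K (W.H P.X)) (hdim : P.X.dim = 2) (hP : IsLefschetz W P)
    (triv : ∀ {p : ℕ}, p ≤ 2 → ∀ {c : P.X.Cycles}, P.X.IsCyc p c → W.cl P.X c ∈ A)
    (h1 : ∀ a ∈ W.gr P.X 1, a ∈ A) (h1' : ∀ a ∈ W.gr P.X 1, W.cl P.X P.D * a ∈ A)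
    (h2 : ∀ y, OfDegree W P.X 2 y → y ∈ A) (x : W.H P.X) : x ∈ A := by
  have h0 : ∀ a ∈ W.gr P.X 0, a ∈ A := by
    intro a ha
    rw [W.gr_zero, Submodule.mem_span_singleton] at ha
    obtain ⟨c, rfl⟩ := ha
    refine Submodule.smul_mem _ _ ?_
    have e1 := triv (p := 0) (by omega) P.X.V.fundCycle_mem
    rwa [W.cl_fund] at e1
  have h4 : ∀ a ∈ W.gr P.X 4, a ∈ A := by
    intro a ha
    have e1 := (hP.hard 0 (Nat.zero_le _)).2 a (by rw [hdim]; exact ha)
    obtain ⟨b, hb, hba⟩ := e1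
    rw [W.gr_zero, Submodule.mem_span_singleton] at hb
    obtain ⟨c, rfl⟩ := hb
    rw [map_smul] at hba
    rw [← hba]
    refine Submodule.smul_mem _ _ ?_
    have e2 := divPow_mem (ops := ops) hP.isCyc (P.X.dim - 0) P.X.V.fundCycle_mem
    have e3 := triv (by omega) e2
    rwa [cl_divPow, W.cl_fund] at e3
  have h3 : ∀ a ∈ W.gr P.X 3, a ∈ A := by
    intro a ha
    obtain ⟨b, hb, hba⟩ := (hP.hard 1 (by omega)).2 a (by rw [hdim]; exact ha)
    rw [show P.X.dim - 1 = 1 by omega, pow_one, LinearMap.mulLeft_apply] at hba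
    rw [← hba]
    exact h1' b hb
  refine gr_induction (W.isInternal P.X) (p := fun x => x ∈ A) ?_ ?_ x
  · intro i a ha
    rcases Nat.lt_or_ge 4 i with hi | hi
    · have e1 := W.gr_eq_bot P.X i (by omega)
      rw [e1] at ha
      rw [(Submodule.mem_bot W.K).1 ha]
      exact Submodule.zero_mem _
    · interval_cases i
      · exact h0 a ha
      · exact h1 a ha
      · exact h2 a ha
      · exact h3 a ha
      · exact h4 a ha
  · intro a b ha hb
    exact Submodule.add_mem _ ha hb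

/-- **Surfaces whose transcendental classes are reached by divisors at places.** -/
theorem spanned_of_jumps (hl : 2 ≤ l) (h : EnoughJumps W P Q l) :
    SpannedBySpecialisations W P Q l := by
  have hdim := h.dim
  have hK := h.known
  have triv : ∀ {p : ℕ}, p ≤ 2 → ∀ {c : P.X.Cycles}, P.X.IsCyc p c →
      W.cl P.X c ∈ algSpan W P Q l := by
    intro p hp c hc
    exact mem_algSpan (becomes_of_cycle (S := trivialPlace hK.fst.isCyc hK.snd.isCyc) hl hdim hK
      (fun v hv => ⟨v, hv, fun _ => rfl⟩) hp hc rfl)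
  obtain ⟨C, hC1, hC, hCP, hCQ, hCx⟩ := h.degreeOne
  have hcurve : ∀ (p : ℕ) (z : (C.X.prod P.X).Cycles) (y : W.H C.X), 1 ≤ p → p ≤ 2 →
      (C.X.prod P.X).IsCyc p z → corrMap W z y ∈ algSpan W P Q l := by
    intro p z y hp1 hp2 hz
    refine mem_algSpan ⟨k, _, 𝒱, ops, W, P, Q, C, trivialPlace hK.fst.isCyc hK.snd.isCyc,
      hK.fst, hK.snd, hC, fun v hv => ⟨v, hv, fun _ => rfl⟩, p, p + l - 2, z, y, hz, by omega,
      ?_, ?_, rfl⟩
    · intro n hn hn2
      have e1 : 2 * n ≤ C.X.dim + P.X.dim := hn2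
      exact hCP n (by omega) hn2
    · intro n hn hn2
      exact hCQ n (by omega) hn2
  intro x
  change x ∈ algSpan W P Q l
  refine surface_span (algSpan W P Q l) hdim hK.fst triv ?_ ?_ ?_ x
  · intro a ha
    obtain ⟨z, y, hz, rfl⟩ := hCx a ha
    exact hcurve 1 z y le_rfl (by omega) hz
  · intro a ha
    obtain ⟨z, y, hz, rfl⟩ := hCx a ha
    have e1 : corrMap W (ops.mul z (ops.pull (snd C.X P.X) P.D)) y =
        W.cl P.X P.D * corrMap W z y := by
      change W.corr (W.cl _ (ops.mul z (ops.pull (snd C.X P.X) P.D))) y =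
        W.cl P.X P.D * W.corr (W.cl _ z) y
      rw [W.cl_mul, W.cl_pull, corr_apply, corr_apply,
        W.even_comm (W.cl_mem hz) (W.map (snd C.X P.X) (W.cl P.X P.D)), mul_assoc,
        W.mul_push (snd C.X P.X) (W.cl_mem hK.fst.isCyc)]
    rw [← e1]
    exact hcurve 2 _ y (by omega) le_rfl (ops.mul_mem hz (ops.pull_mem _ hK.fst.isCyc))
  · refine span_of_jumps hdim hK.fst hK.index h.jumps ?_
      (fun g σ h' hσ hg y hy => algSpan_stable hσ hg hy) ?_
    · intro a ha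
      refine Submodule.span_le.2 ?_ ha
      rintro _ ⟨w, hw, rfl⟩
      exact triv (by omega) hw
    · rintro x ⟨k₀, _, 𝒱₀, ops₀, W₀, P₀, Q₀, S, hK₀, hspec, c, hc, hxc⟩
      exact ⟨gr_of_divisor S hc hxc,
        mem_algSpan (becomes_of_cycle hl hdim hK₀ hspec (by omega) hc hxc)⟩

end Pool.Agent.H846.Hdt
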