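import Pool.Agent.H846.Hdt.SpanDefs

/-!
# Surfaces whose transcendental classes are reached by divisors at places: definitions
-/

open CategoryTheory AlgebraicGeometry

universe u v

namespace Pool.Agent.H846.Hdt

open Pool.Agent.H914 Pool.Agent.H914.VarClass Pool.Agent.H914.VarClass.Obj
  Pool.Agent.H281R3.HT Pool.Agent.H846.Det Pool.Agent.H846.Plc

/-- For each subspace `U` of `T`, different from `T`, which is stable under the maps in `G`, some
element of `J` is not in `N + U`, where `N` is the span of `D`. If `T` is irreducible under `G`, this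
only has to be checked for `U = 0`: some element of `J` is not in `N`. -/
def EnoughOutside (K : Type*) {A : Type*} [Field K] [Ring A] [Algebra K A]
    (T J : A → Prop) (D : Set A) (G : (A → A) → Prop) : Prop :=
  ∀ U : Submodule K A, (∀ y ∈ U, T y) → (∀ g, G g → ∀ y ∈ U, g y ∈ U) →
    (∀ y, T y → y ∈ U) ∨ ∃ x, J x ∧ x ∉ Submodule.span K D ⊔ U

/-- The element `y` of the algebra `A` is orthogonal to the set `D` for the form `tr(x y)`. -/
def IsOrthogonalTo {K A : Type*} [Field K] [Ring A] [Algebra K A] (tr : A →ₗ[K] K) (D : Set A)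
    (y : A) : Prop :=
  ∀ w ∈ D, tr (y * w) = 0

/-- The element `y` of the algebra `A` is in the subspace `U`. -/
def IsIn {K A : Type*} [Field K] [Ring A] [Algebra K A] (U : Submodule K A) (y : A) : Prop :=
  y ∈ U

variable {k : Type u} [Field k] {𝒱 : VarClass k} {ops : CycleOps 𝒱}
  {k₀ : Type u} [Field k₀] {𝒱₀ : VarClass k₀} {ops₀ : CycleOps 𝒱₀}

/-- The class `y` is in `H^j(X)`. -/
def OfDegree (W : WeilCohomology.{u, v} ops) (X : 𝒱.Obj) (j : ℕ) (y : W.H X) : Prop :=
  IsIn (W.gr X j) y

/-- The classes of divisors. -/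
def divisorClasses (W : WeilCohomology.{u, v} ops) (P : Polarized 𝒱) : Set (W.H P.X) :=
  {a | ∃ w, P.X.IsCyc 1 w ∧ classOf W P.X w = a}

/-- The class `y` is in the transcendental part of `H^2(X)`, for a surface `X`: it is orthogonal
to all divisors. -/
def InTranscendental (W : WeilCohomology.{u, v} ops) (P : Polarized 𝒱) (y : W.H P.X) : Prop :=
  OfDegree W P.X 2 y ∧ IsOrthogonalTo (W.tr P.X) (divisorClasses W P) y

/-- The automorphism `g` of the ring `H(X)` (semilinear, preserving the degrees, the trace and the
classes of divisors) extends to `H(Y)` such that it commutes with the cycles of codimension `l` on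
`X × Y`: for instance an element of a small open subgroup of the geometric monodromy group. -/
def Extends (W : WeilCohomology.{u, v} ops) (P Q : Polarized 𝒱) (l : ℕ)
    (g : CohIso W W P.X P.X) : Prop :=
  (∃ σ, IsComparison W W P P σ g) ∧
  (∀ w, P.X.IsCyc 1 w → isoMap g (classOf W P.X w) = classOf W P.X w) ∧
  ∃ h, IsSymmetry W P Q l g h

/-- The varieties `X` and `Y` satisfy the hard Lefschetz theorem and the Lefschetz standard
conjecture, `X` satisfies the Hodge index theorem, and `Y` satisfies the standard conjecture of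
Hodge type (homological form) in the codimensions at most `l`, which is the Hodge index theorem if
`dim Y ≤ 3`. The class of varieties contains a point. -/
structure IsKnown (W : WeilCohomology.{u, v} ops) (P Q : Polarized 𝒱) (l : ℕ) : Prop where
  fst : IsLefschetz W P
  snd : IsLefschetz W Q
  index : HomHodgeUpTo W P 1
  hodge : HomHodgeUpTo W Q l
  point : ∃ Z : 𝒱.Obj, Z.dim = 0

/-- At the place `(X₀, Y₀)` the class `x` of `X` corresponds to the class of a divisor on `X₀`.
Moreover all cycles of codimension `l` on `X × Y` specialise to cycles on `X₀ × Y₀`. -/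
def IsDivisorAt {W : WeilCohomology.{u, v} ops} {W₀ : WeilCohomology.{u, v} ops₀}
    {P Q : Polarized 𝒱} {P₀ Q₀ : Polarized 𝒱₀} (S : Place W W₀ P Q P₀ Q₀) (l : ℕ)
    (x : W.H P.X) : Prop :=
  (∀ v, (P.X.prod Q.X).IsCyc l v →
    ∃ v₀, (P₀.X.prod Q₀.X).IsCyc l v₀ ∧ SpecializesTo S.s S.t v v₀) ∧
  ∃ c, P₀.X.IsCyc 1 c ∧ isoMap S.s x = classOf W₀ P₀.X c

/-- The class `x` becomes the class of a divisor at some place. -/
def BecomesDivisor (W : WeilCohomology.{u, v} ops) (P Q : Polarized 𝒱) (l : ℕ)
    (x : W.H P.X) : Prop :=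
  ∃ (k₀ : Type u) (_ : Field k₀) (𝒱₀ : VarClass k₀) (ops₀ : CycleOps 𝒱₀)
    (W₀ : WeilCohomology.{u, v} ops₀) (P₀ Q₀ : Polarized 𝒱₀) (S : Place W W₀ P Q P₀ Q₀),
    IsKnown W₀ P₀ Q₀ l ∧ IsDivisorAt S l x

/-- The classes in `H^1(X)`, for a surface `X`, are the images of classes of `C` under cycles of
codimension one on `C × X`, where `C` is a curve (or a point if `H^1(X) = 0`) which satisfies the
Lefschetz standard conjecture. The Hodge index theorem holds for `C × X`, and the standard
conjecture of Hodge type (homological form) holds in the codimensions at most `l` for `C × Y`,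
which is the Hodge index theorem if `dim C + dim Y ≤ 3`. (If `Y` is a surface, then such a `C`
exists for all surfaces `X`, by the theory of the Picard variety.) -/
def DegreeOneFromCurve (W : WeilCohomology.{u, v} ops) (P Q : Polarized 𝒱) (l : ℕ) : Prop :=
  ∃ C : Polarized 𝒱, C.X.dim ≤ 1 ∧ IsLefschetz W C ∧ HomHodgeUpTo W (C.prod ops P) 1 ∧
    HomHodgeUpTo W (C.prod ops Q) l ∧
    ∀ x, OfDegree W P.X 1 x → ∃ z y, (C.X.prod P.X).IsCyc 1 z ∧ corrMap W z y = x

/-- `X` is a surface such that for each subspace `U` of the transcendental part `T` of `H^2(X)`,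
different from `T`, which is stable under the symmetries, `X₀` has at one place `(X₀, Y₀)` of
`(X, Y)` a divisor outside `NS(X) + U`. If `T` is irreducible under the symmetries, this means that
`X₀` has more divisors than `X` at ONE place. -/
structure EnoughJumps (W : WeilCohomology.{u, v} ops) (P Q : Polarized 𝒱) (l : ℕ) : Prop where
  dim : P.X.dim = 2
  degreeOne : DegreeOneFromCurve W P Q l
  known : IsKnown W P Q l
  jumps : EnoughOutside W.K (InTranscendental W P) (BecomesDivisor W P Q l) (divisorClasses W P)
    fun φ => ∃ g, Extends W P Q l g ∧ isoMap g = φ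

end Pool.Agent.H846.Hdt
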