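import Pool.Agent.H846.Hdt.Defs

/-!
# Cohomology spanned by classes which become algebraic at places: definitions
-/

open CategoryTheory AlgebraicGeometry

universe u v

namespace Pool.Agent.H846.Hdt

open Pool.Agent.H914 Pool.Agent.H914.VarClass Pool.Agent.H914.VarClass.Obj
  Pool.Agent.H281R3.HT Pool.Agent.H846.Det Pool.Agent.H846.Plc

/-- The vector `x` is a linear combination of vectors in `S`. -/
def InSpan (K : Type*) {A : Type*} [Field K] [AddCommGroup A] [Module K A] (S : Set A) (x : A) :
    Prop :=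
  x ∈ Submodule.span K S

variable {k : Type u} [Field k] {𝒱 : VarClass k} {ops : CycleOps 𝒱}
  {k₀ : Type u} [Field k₀] {𝒱₀ : VarClass k₀} {ops₀ : CycleOps 𝒱₀}

/-- At the place `(X₀, Y₀)` the class `x` of `X` corresponds to a class `z(y)`, where `z` is an
algebraic cycle of codimension `p` on `Z × X₀` and `y` any cohomology class of `Z` (if `Z` is a
point, this is a class of a cycle of codimension `p` on `X₀`); all cycles of codimension `l` on
`X × Y` specialise to cycles on `X₀ × Y₀`; and the standard conjecture of Hodge type (homological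
form) holds for `Z × X₀` in the codimensions at most `p` and for `Z × Y₀` in the codimensions at
most `r = p + l - dim X`. -/
def AlgebraicAt {W : WeilCohomology.{u, v} ops} {W₀ : WeilCohomology.{u, v} ops₀}
    {P Q : Polarized 𝒱} {P₀ Q₀ : Polarized 𝒱₀} (S : Place W W₀ P Q P₀ Q₀)
    (Z : Polarized 𝒱₀) (l : ℕ) (x : W.H P.X) : Prop :=
  (∀ v, (P.X.prod Q.X).IsCyc l v →
    ∃ v₀, (P₀.X.prod Q₀.X).IsCyc l v₀ ∧ SpecializesTo S.s S.t v v₀) ∧
  ∃ (p r : ℕ) (z : (Z.X.prod P₀.X).Cycles) (y : W₀.H Z.X),
    (Z.X.prod P₀.X).IsCyc p z ∧ p + l = r + P₀.X.dim ∧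
    HomHodgeUpTo W₀ (Z.prod ops₀ P₀) p ∧ HomHodgeUpTo W₀ (Z.prod ops₀ Q₀) r ∧
    isoMap S.s x = corrMap W₀ z y

/-- The class `x` of `X` becomes algebraic at some place (`X₀, Y₀)` over some field `k₀`, where
`X₀`, `Y₀` and the auxiliary variety `Z` satisfy the Lefschetz standard conjecture. -/
def BecomesAlgebraic (W : WeilCohomology.{u, v} ops) (P Q : Polarized 𝒱) (l : ℕ)
    (x : W.H P.X) : Prop :=
  ∃ (k₀ : Type u) (_ : Field k₀) (𝒱₀ : VarClass k₀) (ops₀ : CycleOps 𝒱₀)
    (W₀ : WeilCohomology.{u, v} ops₀) (P₀ Q₀ Z : Polarized 𝒱₀)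
    (S : Place W W₀ P Q P₀ Q₀),
    IsLefschetz W₀ P₀ ∧ IsLefschetz W₀ Q₀ ∧ IsLefschetz W₀ Z ∧ AlgebraicAt S Z l x

/-- The pair of maps `g` of `H(X)` and `h` of `H(Y)` is a symmetry: a pair of automorphisms of the
cohomology rings which commutes with the cycles of codimension `l` on `X × Y` (for instance given
by an element of a small open subgroup of the geometric monodromy group). -/
def IsSymmetry (W : WeilCohomology.{u, v} ops) (P Q : Polarized 𝒱) (l : ℕ)
    (g : CohIso W W P.X P.X) (h : CohIso W W Q.X Q.X) : Prop :=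
  ∀ v, (P.X.prod Q.X).IsCyc l v → SpecializesTo g h v v

/-- The cohomology of `X` is spanned, over the coefficient field, by the images under symmetries
of classes which become algebraic at places of `(X, Y)` (the places may depend on the classes). -/
def SpannedBySpecialisations (W : WeilCohomology.{u, v} ops) (P Q : Polarized 𝒱) (l : ℕ) : Prop :=
  ∀ x : W.H P.X, InSpan W.K {y | ∃ g h w, IsSymmetry W P Q l g h ∧
    BecomesAlgebraic W P Q l w ∧ isoMap g w = y} x

end Pool.Agent.H846.Hdt
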